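import Pool.Agent.helper30.QP.SpecK
import Pool.Agent.helper92.IG.NF

/-!
# QP: row HTC, the order of a factor of a polynomial in `sig B 1 DDk`
-/

set_option autoImplicit false

open Polynomial Pool.Agent.helper7.IG

noncomputable section

namespace Pool.Agent.QP

/-- A nonzero polynomial of degree at most `d` in `sig B 1 DDk` is not zero and has order at most `B d`. -/
lemma HTC_order {B d : ℕ} (hB : B ≠ 0) {A : Polynomial kk} (hA : A ≠ 0) (hd : A.natDegree ≤ d) :
    aeval (sig B 1 DDk) A ≠ (0 : LL) ∧ (aeval (sig B 1 DDk) A : LL).order ≤ B * d := by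
  obtain ⟨h0, h1⟩ := nf_phi_order hA
  have h2 : (aeval (sig B 1 DDk) A : LL) = sig B 1 (nf_phi A) := by
    unfold nf_phi
    exact Polynomial.aeval_algHom_apply (sig B 1) DDk A
  rw [h2]
  refine ⟨fun h => h0 (sig_injective B 1 (by rw [h, map_zero])), ?_⟩
  have h3 : (sig B 1 (nf_phi A)).coeff ((B : ℤ) * (nf_phi A).order) ≠ 0 := by
    rw [sig_coeff_mul hB, one_zpow, Units.val_one, one_mul]
    exact mt HahnSeries.coeff_order_eq_zero.mp h0
  refine (HahnSeries.order_le_of_coeff_ne_zero h3).trans ?_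
  have h4 : (nf_phi A).order ≤ (d : ℤ) := h1.trans (by exact_mod_cast hd)
  exact mul_le_mul_of_nonneg_left h4 (by positivity)

theorem HTC (hINO : INO_stmt) : HTC_stmt := by
  intro B d A y z hB hA hd hy hz h
  obtain ⟨h0, h1⟩ := HTC_order hB hA hd
  rw [h] at h0 h1
  have hy0 : y ≠ 0 := left_ne_zero_of_mul h0
  have hz0 : z ≠ 0 := right_ne_zero_of_mul h0
  have hyo : 0 ≤ y.order := by
    by_contra hlt
    exact mt HahnSeries.coeff_order_eq_zero.mp hy0 (hINO B 1 y hB hy _ (not_le.mp hlt))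
  have hzo : 0 ≤ z.order := by
    by_contra hlt
    exact mt HahnSeries.coeff_order_eq_zero.mp hz0 (hINO B 1 z hB hz _ (not_le.mp hlt))
  rw [HahnSeries.order_mul hy0 hz0] at h1
  refine ⟨y.order.toNat, ?_, ?_⟩
  · have h2 : y.order ≤ ((B * d : ℕ) : ℤ) := by
      push_cast
      linarith
    omega
  · rw [Int.toNat_of_nonneg hyo]
    exact mt HahnSeries.coeff_order_eq_zero.mp hy0

end Pool.Agent.QP
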